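import Mathlib
import Pool.Agent.H94.AC.Defs
import Pool.Agent.H94.AC.Assembly

/-!
# Two explicit boundary measurements determine an analytic insulating crack of any genus (MP_0ee698_an)

For every bounded connected Lipschitz domain `Ω` of `R^3` with outer unit normal `ν` the two current profiles `ν₁`
and `x₂ ν₁ + x₁ ν₂ + ν₃` determine the admissible cracks (curved, of any genus) which are real-analytic at their
interior points. More precisely: if `S` and `S'` are admissible cracks with the same two measurements and `S` is
real-analytic at its interior points, then `S ⊆ S'`.

Proof modules: `Pool/Agent/H*/ICA/*.lean`, assembled in `Pool/Agent/H94/AC/Assembly.lean`.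
-/

open MeasureTheory Set Filter Topology Metric
open scoped ENNReal NNReal ContDiff RealInnerProductSpace

open Pool.Agent.H94.IC Pool.Agent.H94.AC

/-- For every bounded connected Lipschitz domain `Ω` of `R^3` with surface measure `σ` and outer unit normal `ν` the
two functions `prof2 ν` are current profiles. If `S` and `S'` are admissible cracks with equal measurements for both
profiles and `S` is real-analytic at its interior points, then `S ⊆ S'`; if `S'` is real-analytic at its interior
points too, then `S = S'`. -/
theorem Pool.Agent.Results.MP_0ee698_an.AnalyticCracks.result (Ω : Set E) (σ : Measure E) (ν : E → E) (hΩ : Dom Ω)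
    (hσ : IsSurf Ω σ ν) : (∀ i, IsProfile σ (prof2 ν i)) ∧
      ∀ S S' : Set E, IsAnaCrack Ω S → IsCrack Ω S' →
        Contain Ω σ ν (prof2 ν) S S' ∧ (IsAnaCrack Ω S' → Distinguish Ω σ ν (prof2 ν) S S') :=
  q_MNA Ω σ ν hΩ hσ
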