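import Mathlib
import Pool.Agent.H92.CK.Stmt
import Pool.Agent.H92.CK.All

/-!
# Finitely many boundary measurements and pairs of insulating cracks of arbitrary genus (MP_0ee698_an)

For every bounded connected Lipschitz domain `Ω` of `R^3` there are finitely many current profiles with the following
properties. Let `S` be an admissible crack (of any genus) and let `S'` have the same measurements.

* If `S'` is a smooth closed disc, then `S = S'`.

Let `S'` be an admissible crack of any genus.

* The open pieces of `S` without real-analytic points are contained in `S'`.
* If `S` is tame, then `S ⊆ S'`; if moreover `S'` is tame or rough at its edge, or if its edge is contained in `S`,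
  then `S = S'`.
* If `S` and `S'` have the same edge, then `S = S'`.
* If off a closed disc contained in `S` the set `S \ S'`, together with the real-analytic parts of `S` which it
  reaches, is dense in `S` (for instance: `S ∩ S'` has no interior in `S`, or `S ∩ S'` is contained in a disc in `S`),
  then `S = S'`.

Proof modules: `Pool/Agent/H*/CK/*.lean`, assembled in `Pool/Agent/H92/CK/All.lean`.
-/

open MeasureTheory Set Filter Topology Metric
open scoped ENNReal NNReal ContDiff RealInnerProductSpace

open Pool.Agent.H94.IC Pool.Agent.H94.AC Pool.Agent.H92.CK

/-- For every bounded connected Lipschitz domain `Ω` of `R^3` with surface measure `σ` and outer unit normal `ν` there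
are finitely many current profiles `ψ` (square integrable with mean zero) such that for all admissible cracks `S` and
all `S'` with the same measurements: `S = S'` if `S'` is an embedded disc; and if `S'` is an admissible crack, then
the open pieces of `S` without real-analytic points lie in `S'`; `S ⊆ S'` if `S` is tame; and `S = S'` if one of the
following holds: `S` is tame, and `S'` is tame or rough at its edge or has its edge in `S`; the edges of `S` and `S'`
are equal; off a disc in `S` the set `S \ S'` with the analytic parts of `S` which it reaches is dense in `S`. -/
theorem Pool.Agent.Results.MP_0ee698_an.PairsOfCracks.result (Ω : Set E) (σ : Measure E) (ν : E → E) (hΩ : Dom Ω)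
    (hσ : IsSurf Ω σ ν) : ∃ (N : ℕ) (ψ : Fin N → E → ℝ), (∀ i, IsProfile σ (ψ i)) ∧
      ∀ S S' : Set E, IsCrack Ω S → Same Ω σ ν ψ S S' →
        (IsDisc Ω S' → S = S') ∧
        (IsCrack Ω S' → intPts S \ closure (AnaPts S) ⊆ S' ∧ (Tame Ω S → S ⊆ S') ∧
          (Tame Ω S ∧ (Tame Ω S' ∨ RoughEdge S' ∨ edgePts S' ⊆ S) ∨ edgePts S = edgePts S' ∨ Spread Ω S S' →
            S = S')) :=
  k_Main Ω σ ν hΩ hσ
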