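import Mathlib
import Pool.Agent.H92.CK.Stmt
import Pool.Agent.H65.AP.Fat
import Pool.Agent.H65.AP.All

/-!
# Insulating cracks under a scale invariant a priori bound (MP_0ee698_an)

For every bounded connected Lipschitz domain `Ω` of `R^3` there is one sequence `ψ 0, ψ 1, ..` of current profiles,
and there are numbers `N r`, such that for every `r > 0` the first `N r` profiles distinguish every admissible crack
`S` (of any genus) in the class `Fat r Ω S` from every other admissible crack `S'` (in the class or not).

The crack `S` is in the class if it has distance at least `r` from `∂Ω`, and its reach is at least `r` times its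
diameter, or its complement can be pushed away from it to the distance `r` times its diameter. There is no lower
bound for the size of the cracks. Every admissible crack is in such a class.

Proof modules: `Pool/Agent/H*/AP/*.lean`, `Pool/Agent/H*/APS/*.lean`, assembled in `Pool/Agent/H65/AP/Pre.lean` and
`Pool/Agent/H65/AP/All.lean`.
-/

open MeasureTheory Set Filter Topology Metric
open scoped ENNReal NNReal ContDiff RealInnerProductSpace

open Pool.Agent.H94.IC Pool.Agent.H92.CK Pool.Agent.H65.AP

/-- For every bounded connected Lipschitz domain `Ω` of `R^3` with surface measure `σ` and outer unit normal `ν` there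
are a sequence `ψ` of current profiles (square integrable with mean zero) and numbers `N r` such that for every
`r > 0` and all admissible cracks `S`, `S'`: if `S` is in the class with parameter `r` and the measurements for the
first `N r` profiles agree, then `S = S'`. Every admissible crack is in such a class: it has reach at least `r` times
its diameter for some `r > 0`. -/
theorem Pool.Agent.Results.MP_0ee698_an.PositiveReach.result (Ω : Set E) (σ : Measure E) (ν : E → E) (hΩ : Dom Ω)
    (hσ : IsSurf Ω σ ν) :
    (∃ (ψ : ℕ → E → ℝ) (N : ℝ → ℕ), (∀ i, IsProfile σ (ψ i)) ∧ ∀ r > 0, ∀ S S' : Set E, IsCrack Ω S →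
      IsCrack Ω S' → Fat r Ω S → Same Ω σ ν (fun i : Fin (N r) => ψ i) S S' → S = S') ∧
    ∀ S : Set E, IsCrack Ω S → ∃ r > 0, HasReach (r * diam S) S ∧ Fat r Ω S :=
  a_APF Ω σ ν hΩ hσ
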